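import Pool.Agent.Work.MP_170125_pr.Fricke

/-!
Answer to Q2 of MP_170125_pr: for random positive words with independent letters, the exponential
growth rates of the maximal coefficient and of the sum of the absolute values of the coefficients
of the Fricke trace polynomial converge, almost surely and in probability, to one deterministic
constant, for every letter probability `p` in `(0,1)`.
-/

open MeasureTheory Filter Topology

namespace Pool.Agent.Results.MP_170125_pr.PositiveWords

open Pool.Agent.TracePoly

universe u

theorem result (p : ℝ) (hp0 : 0 < p) (hp1 : p < 1) :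
    ∃ c : ℝ, ∀ f : FreeGroup (Fin 2) → MvPolynomial (Fin 3) ℤ, IsFricke f →
      ∀ (Ω : Type u) [MeasurableSpace Ω] (P : Measure Ω) [IsProbabilityMeasure P]
        (s : ℕ → Ω → Fin 2 × Bool), (∀ n, Measurable (s n)) →
        (∀ w : List (Fin 2 × Bool), P.real {ω | firstLetters s w.length ω = w} = posLaw p w) →
        (∀ᵐ ω ∂P, Tendsto (fun n : ℕ =>
          Real.log (height (f (FreeGroup.mk (firstLetters s n ω)))) / n) atTop (𝓝 c)) ∧
        (∀ᵐ ω ∂P, Tendsto (fun n : ℕ =>
          Real.log (l1 (f (FreeGroup.mk (firstLetters s n ω)))) / n) atTop (𝓝 c)) ∧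
        TendstoInMeasure P (fun (n : ℕ) ω =>
          Real.log (height (f (FreeGroup.mk (firstLetters s n ω)))) / n) atTop (fun _ => c) ∧
        TendstoInMeasure P (fun (n : ℕ) ω =>
          Real.log (l1 (f (FreeGroup.mk (firstLetters s n ω)))) / n) atTop (fun _ => c) :=
  (goodLaw_posLaw hp0 hp1).main

end Pool.Agent.Results.MP_170125_pr.PositiveWords
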