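import Pool.Agent.Work.MP_170125_pr.Fricke

/-!
Answer to Q1 of MP_170125_pr: for freely reduced random words in the free group of rank two, the
exponential growth rates of the maximal coefficient and of the sum of the absolute values of the
coefficients of the Fricke trace polynomial converge, almost surely and in probability, to one
deterministic constant.
-/

open MeasureTheory Filter Topology

namespace Pool.Agent.Results.MP_170125_pr.ReducedWords

open Pool.Agent.TracePoly

universe u

theorem result :
    ∃ c : ℝ, ∀ f : FreeGroup (Fin 2) → MvPolynomial (Fin 3) ℤ, IsFricke f →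
      ∀ (Ω : Type u) [MeasurableSpace Ω] (P : Measure Ω) [IsProbabilityMeasure P]
        (s : ℕ → Ω → Fin 2 × Bool), (∀ n, Measurable (s n)) →
        (∀ w : List (Fin 2 × Bool), P.real {ω | firstLetters s w.length ω = w} = redLaw w) →
        (∀ᵐ ω ∂P, Tendsto (fun n : ℕ =>
          Real.log (height (f (FreeGroup.mk (firstLetters s n ω)))) / n) atTop (𝓝 c)) ∧
        (∀ᵐ ω ∂P, Tendsto (fun n : ℕ =>
          Real.log (l1 (f (FreeGroup.mk (firstLetters s n ω)))) / n) atTop (𝓝 c)) ∧
        TendstoInMeasure P (fun (n : ℕ) ω =>
          Real.log (height (f (FreeGroup.mk (firstLetters s n ω)))) / n) atTop (fun _ => c) ∧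
        TendstoInMeasure P (fun (n : ℕ) ω =>
          Real.log (l1 (f (FreeGroup.mk (firstLetters s n ω)))) / n) atTop (fun _ => c) :=
  goodLaw_redLaw.main

end Pool.Agent.Results.MP_170125_pr.ReducedWords
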